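import Pool.Agent.N64.AF.X2

/-!
# Zero-cycles on K3 surfaces and the size of the Chow groups of ONE power

Let `X` be a K3 surface over a number field or over `Q̄` (more generally over any field of
characteristic zero), of (geometric) Picard number `ρ`, with transcendental motive `t_2(X)`
(Kahn, Murre, Pedrini), of rank `22 - ρ`; `t_2(X)` is simple modulo numerical equivalence, because
the transcendental lattice is an irreducible Hodge structure with a field of endomorphisms (Zarhin).
Let `e = dim End(t_2(X))` modulo numerical equivalence, let `ν (n)` be the dimension of the group of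
numerically trivial cycles in `CH^{n+1}(X^n)_ℚ` (a number or infinity; the groups vanish according to
the conjectures of Beilinson and Bloch, as the odd cohomology of `X^n` is zero), `r (n)` the rank of
`CH^n(X^n)` modulo numerical equivalence, and `q (n)` the dimension of the space of
correspondences of degree 0 from `t_2(X)(1)` to `h(X^n)(n)` modulo numerical equivalence (the part of
`t_2(X)` in the numerical cycles of codimension `n + 1` on `X × X^n`).

Theorem.
(1) The quotients `ν (n) / r (n)` converge, for `n → ∞`, and the limit `N` is a natural number or
infinity; `N = 0` if and only if all `ν (n)` are zero.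
(2) If `N = k` is finite then all `ν (n)` are finite, and compositions of `k` numerically trivial
self-correspondences of degree 0 (more generally, such correspondences between powers of `X`) act as
zero on `CH^2(X)_0`.
(3) `q (n) / r (n) → 22 - ρ` and `(22 - ρ) dim CH^2(X)_0 ≤ e N`.
(4) If `CH^2(X)_0 ⊗ ℚ ≠ 0` then `N ≥ 22 - ρ`, and `ν (n) ≥ q (n)` for ALL `n ≥ 24^3`.

So the Beilinson-Bloch conjecture `CH^2(X)_ℚ = ℚ` holds for the K3 surface `X` as soon as the group of
the numerically trivial cycles of codimension `n + 1` on ONE power `X^n`, `n ≥ 24^3`, has dimension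
less than the explicit number `q (n)`, which depends on numerical equivalence only and is
approximately `(22 - ρ) r (n)`. The failure of the conjecture for `X` would make the Chow groups of the
powers larger than the numerical groups by this factor at least.

The setting: `C` is the category of Chow motives over the base field (correspondences of degree 0,
coefficients in `Λ = ℚ`), `T = h(X)(1)`, which is self-dual and has the unit object as a direct factor,
`L` is the Lefschetz motive, `R` is the étale cohomology; `Hom(L, tp T n) = CH^{n+1}(X^n)`,
`Hom(1, tp T n) = CH^n(X^n)`, `P = t_2(X)(1)`, `m = 1`, `Hom(L, P) = CH^2(X)_0`. The theorem holds for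
all self-dual objects with the sign conjecture (surfaces, abelian varieties, ...), any `L`, and all
direct factors `P` of the powers which are simple modulo numerical equivalence.

Idea of the proof. `Z ↦ (numerically trivial morphisms from L to Z)` is an additive functor `F`. Either
numerically trivial endomorphisms of `T^m` act nilpotently on `F (T^m)`; then a chain of submodules
for the semisimple ring `End(P)` modulo numerical equivalence shows that `F (Z)` contains
`dim F (P) / e` copies of the numerical group `Hom(P, Z)`; or there are `z ≠ 0` in `F (T^m)` and `ε`, numerically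
equal to the identity, with `F (ε) z = 0`, and the insertions of `z` in `a + 1` different slots give
`(a + 1) numRank (T^(m a))` independent elements of `F (T^(m a + m))`.

Authors: helper64 (this result, plan), and, for the lemmas of the law used here, helper136, helper327,
helper199, helper767, helper8, helper364, helper216, helper73, helper833, helper140, helper494,
helper505, helper301, helper441, helper591, helper712, helper945, helper701, helper344, helper690.
-/

set_option autoImplicit false

open CategoryTheory MonoidalCategory Module Filter Topology
open Pool.Agent.Y112.SR Pool.Agent.Y112.KD Pool.Agent.N64.AF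
open scoped ENNReal

namespace Pool.Agent.Results.MP_9207e0_ag.OnePowerCriterion

universe v u w t

/-- The numerically trivial morphisms from `L` to the powers of `T`, and the direct factors of the
powers which are simple modulo numerical equivalence. -/
theorem result {C : Type u} [Category.{v} C] [Preadditive C] [MonoidalCategory C]
    [MonoidalPreadditive C] [SymmetricCategory C] [RightRigidCategory C]
    {Λ : Type t} [Field Λ] [CharZero Λ] [Linear Λ C] [MonoidalLinear Λ C]
    {K : Type w} [Field K] [IsAlgClosed K] [Algebra Λ K] (R : SuperRealisation C K)
    (T : C) [ExactPairing T T] (h : IsPow Λ R T) (L : C) : ∃ N : ℕ∞,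
    RatioTo Λ T (fun n => dimE Λ (numIdeal Λ L (tp T n))) N ∧
    (N = 0 ↔ ∀ (n : ℕ) (f : L ⟶ tp T n), NumTriv f → f = 0) ∧
    (∀ k : ℕ, N = k → (∀ n, Module.Finite Λ (numIdeal Λ L (tp T n))) ∧
      ∀ (a b : ℕ) (g : tp T a ⟶ tp T b), NumPow T k g →
        ∀ f : L ⟶ tp T a, NumTriv f → f ≫ g = 0) ∧
    ∀ (m : ℕ) (P : C) (i : P ⟶ tp T m) (p : tp T m ⟶ P), i ≫ p = 𝟙 P → NumSimple P →
      RatioTo Λ T (fun n => ((nr Λ (𝟙 P) (𝟙 (tp T n)) : ℕ) : ℕ∞)) (bt R P : ℕ∞) ∧
      (bt R P : ℕ∞) * dimE Λ (numIdeal Λ L P) ≤ nr Λ (𝟙 P) (𝟙 P) * N ∧
      ((∃ f : L ⟶ P, NumTriv f ∧ f ≠ 0) → (bt R P : ℕ∞) ≤ N ∧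
        ∀ n : ℕ, m * bt R T ^ (3 * m) ≤ n →
          ((nr Λ (𝟙 P) (𝟙 (tp T n)) : ℕ) : ℕ∞) ≤ dimE Λ (numIdeal Λ L (tp T n))) :=
  cycles_law h L

end Pool.Agent.Results.MP_9207e0_ag.OnePowerCriterion
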